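import Pool.Agent.TH231.DFM.Stmts

/-! DFM-PSI: disorder chaos for all correlations close to one. -/

set_option autoImplicit false

open MeasureTheory ProbabilityTheory Filter Topology

namespace Pool.TH509.DFM

open Pool.TH231.DFM

theorem step (hq : St_PSQ) (β r : ℝ) (hr0 : 0 ≤ r) (hr1 : r ≤ 1)
    (h : Tendsto (fun N : ℕ => Psi β N r) atTop (𝓝 0)) :
    Tendsto (fun N : ℕ => Psi β N (√r)) atTop (𝓝 0) := by
  have hs0 : 0 ≤ √r := Real.sqrt_nonneg r
  have hs1 : √r ≤ 1 := by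
    have := Real.sqrt_le_sqrt hr1
    simpa using this
  have h2 : Tendsto (fun N : ℕ => √(Psi β N r)) atTop (𝓝 0) := by
    have h3 := (Real.continuous_sqrt.tendsto 0).comp h
    rw [Real.sqrt_zero] at h3
    exact h3
  refine squeeze_zero' ?_ ?_ h2
  · filter_upwards [eventually_ge_atTop 1] with N hN
    exact (hq β (√r) N hN hs0 hs1).1
  · filter_upwards [eventually_ge_atTop 1] with N hN
    exact Real.le_sqrt_of_sq_le (hq β r N hN hr0 hr1).2

theorem t_PSI (h0 : St_PSI0) (hq : St_PSQ) : St_PSI := by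
  intro β ε hβ hε
  obtain ⟨r0, C, hr0, hr1, hC⟩ := h0 β hβ
  have hbase : Tendsto (fun N : ℕ => Psi β N r0) atTop (𝓝 0) := by
    have h2 : Tendsto (fun N : ℕ => C / (N : ℝ)) atTop (𝓝 0) :=
      tendsto_const_div_atTop_nhds_zero_nat C
    refine squeeze_zero' ?_ ?_ h2
    · filter_upwards [eventually_ge_atTop 1] with N hN
      exact (hq β r0 N hN hr0.le hr1.le).1
    · filter_upwards [eventually_ge_atTop 1] with N hN
      exact hC N hN
  have hall : ∀ n : ℕ, Tendsto (fun N : ℕ => Psi β N (r0 ^ ((1 / 2 : ℝ) ^ n))) atTop (𝓝 0) := by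
    intro n
    induction n with
    | zero => simpa using hbase
    | succ n ih =>
      have he : r0 ^ ((1 / 2 : ℝ) ^ (n + 1)) = √(r0 ^ ((1 / 2 : ℝ) ^ n)) := by
        rw [Real.sqrt_eq_rpow, ← Real.rpow_mul hr0.le, pow_succ]
      rw [he]
      exact step hq β _ (Real.rpow_nonneg hr0.le _)
        (Real.rpow_le_one hr0.le hr1.le (by positivity)) ih
  have hlim : Tendsto (fun n : ℕ => 1 - (r0 ^ ((1 / 2 : ℝ) ^ n)) ^ 2) atTop (𝓝 0) := by
    have h1 : Tendsto (fun n : ℕ => (1 / 2 : ℝ) ^ n) atTop (𝓝 0) :=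
      tendsto_pow_atTop_nhds_zero_of_lt_one (by norm_num) (by norm_num)
    have h2 : Tendsto (fun n : ℕ => r0 ^ ((1 / 2 : ℝ) ^ n)) atTop (𝓝 (r0 ^ (0 : ℝ))) :=
      ((Real.continuousAt_const_rpow hr0.ne').tendsto).comp h1
    have h3 := (tendsto_const_nhds (x := (1 : ℝ))).sub (h2.pow 2)
    simpa using h3
  obtain ⟨n, hn⟩ := (hlim.eventually (gt_mem_nhds hε)).exists
  refine ⟨r0 ^ ((1 / 2 : ℝ) ^ n), Real.rpow_pos_of_pos hr0 _,
    Real.rpow_lt_one hr0.le hr1 (by positivity), hn, hall n⟩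

end Pool.TH509.DFM
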